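import Mathlib

set_option autoImplicit false

namespace Pool.Agent.Results.MP_c2491a_co.Ex

open Matrix

lemma face {n d : ℕ} (v : Fin n → Fin d → ℝ) (c : Fin d → ℝ) (x y : Fin n)
    (h0 : c ⬝ᵥ v y = c ⬝ᵥ v x) (h1 : ∀ w, c ⬝ᵥ v w ≤ c ⬝ᵥ v x)
    (h2 : ∀ w, c ⬝ᵥ v w = c ⬝ᵥ v x → w = x ∨ w = y) :
    IsExposed ℝ (convexHull ℝ (Set.range v)) (segment ℝ (v x) (v y)) := fun _ => by
  have key : convexHull ℝ (Set.range v) ⊆
      {z | c ⬝ᵥ z ≤ c ⬝ᵥ v x ∧ (c ⬝ᵥ z = c ⬝ᵥ v x → z ∈ segment ℝ (v x) (v y))} := by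
    refine convexHull_min ?_ fun z hz z' hz' a b ha hb hab => ⟨?_, fun h => ?_⟩
    · rintro _ ⟨w, rfl⟩
      refine ⟨h1 w, fun h => ?_⟩
      rcases h2 w h with rfl | rfl
      exacts [left_mem_segment .., right_mem_segment ..]
    · simp only [dotProduct_add, dotProduct_smul, smul_eq_mul]
      have := mul_le_mul_of_nonneg_left hz.1 ha
      have := mul_le_mul_of_nonneg_left hz'.1 hb
      have : a * (c ⬝ᵥ v x) + b * (c ⬝ᵥ v x) = c ⬝ᵥ v x := by rw [← add_mul, hab, one_mul]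
      linarith
    · simp only [dotProduct_add, dotProduct_smul, smul_eq_mul] at h
      have e1 := mul_le_mul_of_nonneg_left hz.1 ha
      have e2 := mul_le_mul_of_nonneg_left hz'.1 hb
      have : a * (c ⬝ᵥ v x) + b * (c ⬝ᵥ v x) = c ⬝ᵥ v x := by rw [← add_mul, hab, one_mul]
      rcases ha.eq_or_lt with rfl | ha'
      · obtain rfl : b = 1 := by linarith
        simpa using hz'.2 (by linarith)
      rcases hb.eq_or_lt with rfl | hb'
      · obtain rfl : a = 1 := by linarith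
        simpa using hz.2 (by linarith)
      exact convex_segment _ _ (hz.2 (mul_left_cancel₀ ha'.ne' (by linarith)))
        (hz'.2 (mul_left_cancel₀ hb'.ne' (by linarith))) ha hb hab
  have m : ∀ w, v w ∈ convexHull ℝ (Set.range v) := fun w => subset_convexHull _ _ ⟨w, rfl⟩
  refine ⟨LinearMap.toContinuousLinearMap ((dotProductBilin ℝ ℝ) c), Set.ext fun z =>
    ⟨fun hz => ⟨(convex_convexHull ℝ _).segment_subset (m x) (m y) hz, fun t ht => ?_⟩,
      fun hz => (key hz.1).2 (le_antisymm (key hz.1).1 (hz.2 _ (m x)))⟩⟩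
  obtain ⟨a, b, -, -, hab, rfl⟩ := hz
  change c ⬝ᵥ t ≤ c ⬝ᵥ _
  simp only [dotProduct_add, dotProduct_smul, smul_eq_mul, h0]
  rw [← add_mul, hab, one_mul]
  exact (key ht).1

def E : Fin 30 → Fin 20 × Fin 20 :=
  ![(0, 4), (0, 7), (0, 8), (1, 8), (1, 17), (1, 19), (2, 5), (2, 12), (2, 17), (3, 6), (3, 11),
   (3, 18), (4, 13), (4, 18), (5, 7), (5, 11), (6, 9), (6, 16), (7, 14), (8, 15), (9, 12), (9,
   15), (10, 16), (10, 17), (10, 18), (11, 19), (12, 14), (13, 14), (13, 15), (16, 19)]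

def N (u : Fin 20) (g : Fin 30) : ℤ := if (E g).1 = u ∨ (E g).2 = u then 1 else 0

def R : Fin 30 → List (Fin 30 × Fin 30 × Fin 30 × Fin 20 × Fin 20) :=
  ![[(1, 3, 19, 0, 8), (2, 14, 18, 0, 7), (12, 11, 24, 4, 18), (13, 27, 28, 4, 13)], [(0, 3, 19,
   0, 8), (2, 12, 13, 0, 4), (14, 26, 27, 7, 14), (18, 6, 15, 7, 5)], [(0, 14, 18, 0, 7), (1, 12,
   13, 0, 4), (3, 21, 28, 8, 15), (19, 4, 5, 8, 1)], [(2, 21, 28, 8, 15), (4, 25, 29, 1, 19), (5,
   8, 23, 1, 17), (19, 0, 1, 8, 0)], [(3, 25, 29, 1, 19), (5, 2, 19, 1, 8), (8, 22, 24, 17, 10),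
   (23, 6, 7, 17, 2)], [(3, 8, 23, 1, 17), (4, 2, 19, 1, 8), (25, 17, 22, 19, 16), (29, 10, 15,
   19, 11)], [(7, 4, 23, 2, 17), (8, 20, 26, 2, 12), (14, 10, 25, 5, 11), (15, 1, 18, 5, 7)], [(6,
   4, 23, 2, 17), (8, 14, 15, 2, 5), (20, 18, 27, 12, 14), (26, 16, 21, 12, 9)], [(4, 22, 24, 17,
   10), (6, 20, 26, 2, 12), (7, 14, 15, 2, 5), (23, 3, 5, 17, 1)], [(10, 13, 24, 3, 18), (11, 15,
   25, 3, 11), (16, 22, 29, 6, 16), (17, 20, 21, 6, 9)], [(9, 13, 24, 3, 18), (11, 16, 17, 3, 6),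
   (15, 5, 29, 11, 19), (25, 6, 14, 11, 5)], [(9, 15, 25, 3, 11), (10, 16, 17, 3, 6), (13, 22, 23,
   18, 10), (24, 0, 12, 18, 4)], [(0, 11, 24, 4, 18), (13, 1, 2, 4, 0), (27, 19, 21, 13, 15), (28,
   18, 26, 13, 14)], [(0, 27, 28, 4, 13), (11, 22, 23, 18, 10), (12, 1, 2, 4, 0), (24, 9, 10, 18,
   3)], [(1, 26, 27, 7, 14), (6, 10, 25, 5, 11), (15, 7, 8, 5, 2), (18, 0, 2, 7, 0)], [(6, 1, 18,
   5, 7), (10, 5, 29, 11, 19), (14, 7, 8, 5, 2), (25, 9, 11, 11, 3)], [(9, 22, 29, 6, 16), (17,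
   10, 11, 6, 3), (20, 19, 28, 9, 15), (21, 7, 26, 9, 12)], [(9, 20, 21, 6, 9), (16, 10, 11, 6,
   3), (22, 5, 25, 16, 19), (29, 23, 24, 16, 10)], [(1, 6, 15, 7, 5), (14, 0, 2, 7, 0), (26, 12,
   28, 14, 13), (27, 7, 20, 14, 12)], [(2, 4, 5, 8, 1), (3, 0, 1, 8, 0), (21, 12, 27, 15, 13),
   (28, 16, 20, 15, 9)], [(7, 18, 27, 12, 14), (16, 19, 28, 9, 15), (21, 9, 17, 9, 6), (26, 6, 8,
   12, 2)], [(16, 7, 26, 9, 12), (19, 12, 27, 15, 13), (20, 9, 17, 9, 6), (28, 2, 3, 15, 8)],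
   [(17, 5, 25, 16, 19), (23, 11, 13, 10, 18), (24, 4, 8, 10, 17), (29, 9, 16, 16, 6)], [(4, 6, 7,
   17, 2), (8, 3, 5, 17, 1), (22, 11, 13, 10, 18), (24, 17, 29, 10, 16)], [(11, 0, 12, 18, 4),
   (13, 9, 10, 18, 3), (22, 4, 8, 10, 17), (23, 17, 29, 10, 16)], [(5, 17, 22, 19, 16), (10, 6,
   14, 11, 5), (15, 9, 11, 11, 3), (29, 3, 4, 19, 1)], [(7, 16, 21, 12, 9), (18, 12, 28, 14, 13),
   (20, 6, 8, 12, 2), (27, 1, 14, 14, 7)], [(12, 19, 21, 13, 15), (18, 7, 20, 14, 12), (26, 1, 14,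
   14, 7), (28, 0, 13, 13, 4)], [(12, 18, 26, 13, 14), (19, 16, 20, 15, 9), (21, 2, 3, 15, 8),
   (27, 0, 13, 13, 4)], [(5, 10, 15, 19, 11), (17, 23, 24, 16, 10), (22, 9, 16, 16, 6), (25, 3, 4,
   19, 1)]]

def nb (a : Fin 30) : List (Fin 30) := (R a).map Prod.fst

def G : SimpleGraph (Fin 30) where
  Adj a b := a ≠ b ∧ b ∉ nb a
  symm := ⟨by decide +kernel⟩
  loopless := ⟨fun _ h => h.1 rfl⟩

instance : DecidableRel G.Adj := fun a b => inferInstanceAs (Decidable (a ≠ b ∧ b ∉ nb a))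

def L : List (ℕ × ℕ) :=
  [(339830052, 339830052), (556044948, 556044948), (311822409, 311822409), (173548114,
   173548114), (152716577, 152716577), (71932194, 71932194), (681616010, 681616010), (621352018,
   621352018), (172574865, 172574865), (10918052, 10918052), (823427849, 823427849), (123886430,
   102764544), (278275172, 278275172), (1067666825, 16393), (375749332, 37748756), (1051862602,
   8396874), (818780341, 362624), (182609588, 136339588), (897934557, 805372928), (510714670,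
   4203264), (86136100, 86136100), (194911347, 1704000), (881175755, 813760520), (111286346,
   111286346), (819308276, 268705796), (857609813, 18088016), (148547426, 135798818), (373377289,
   373377289), (682596523, 8423552), (228750756, 2245668), (885089646, 335619072), (178706605,
   10619008), (128343284, 2232324), (627677994, 67145986), (358604069, 288)]

def y (p : ℕ × ℕ) (g : Fin 30) : ℤ := if p.1.testBit g then if p.2.testBit g then 2 else 1 else 0

def Ker (f : Fin 30 → ℝ) : Prop := ∀ u, ∑ g, (N u g : ℝ) * f g = 0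

lemma col (f : Fin 30 → ℝ) : ∑ u, ∑ g, (N u g : ℝ) * f g = 2 * ∑ g, f g := by
  have : ∀ g, ∑ u, N u g = 2 := by decide +kernel
  rw [Finset.sum_comm, Finset.mul_sum]
  refine Finset.sum_congr rfl fun g _ => ?_
  rw [← Finset.sum_mul]
  exact_mod_cast congrArg (fun t : ℤ => (t : ℝ) * f g) (this g)

lemma row : ∀ u, ∑ g, N u g = 3 := by decide +kernel

lemma eig (f : Fin 30 → ℝ) : G.adjMatrix ℝ *ᵥ f = (1 : ℝ) • f ↔ Ker f := by
  have h : ∀ a b, ∑ u, N u a * N u b = 1 + (if a = b then 1 else 0) - if G.Adj a b then 1 else 0 := by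
    decide +kernel
  have k : ∀ a, (G.adjMatrix ℝ *ᵥ f) a = ∑ g, f g + f a - ∑ u, (N u a : ℝ) * ∑ g, (N u g : ℝ) * f g := by
    intro a
    simp only [Finset.mul_sum]
    rw [Finset.sum_comm]
    have : ∀ g, ∑ u, (N u a : ℝ) * (N u g * f g) =
        f g + (if a = g then f g else 0) - if G.Adj a g then f g else 0 := fun g => by
      have := congrArg (fun t : ℤ => (t : ℝ) * f g) (h a g)
      push_cast at this
      simp only [← mul_assoc, ← Finset.sum_mul, this]
      split_ifs <;> ring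
    simp [this, mulVec, dotProduct, SimpleGraph.adjMatrix_apply, -SimpleGraph.adjMatrix_dotProduct,
      -SimpleGraph.adjMatrix_mulVec_apply, Finset.sum_add_distrib]
  constructor
  · intro hf
    have k' : ∀ a, ∑ u, (N u a : ℝ) * ∑ g, (N u g : ℝ) * f g = ∑ g, f g := fun a => by
      have := k a
      rw [hf, one_smul] at this
      linarith
    have s : ∑ g, f g = 0 := by
      have := Finset.sum_congr rfl fun a (_ : a ∈ Finset.univ) => k' a
      rw [Finset.sum_comm] at this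
      simp only [← Finset.sum_mul, ← Int.cast_sum, row, ← Finset.mul_sum, col] at this
      simp at this
      linarith
    have : ∑ u, (∑ g, (N u g : ℝ) * f g) * ∑ g, (N u g : ℝ) * f g = 0 := by
      have := Finset.sum_congr rfl fun a (_ : a ∈ Finset.univ) => congrArg (f a * ·) (k' a)
      simp only [s, mul_zero, Finset.sum_const_zero, Finset.mul_sum _ _ (f _)] at this
      rw [Finset.sum_comm] at this
      rw [← this]
      refine Finset.sum_congr rfl fun u _ => ?_
      rw [Finset.sum_mul]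
      exact Finset.sum_congr rfl fun g _ => by ring
    exact fun u => mul_self_eq_zero.1 ((Finset.sum_eq_zero_iff_of_nonneg
      fun u _ => mul_self_nonneg _).1 this u (Finset.mem_univ _))
  · intro hf
    have := col f
    funext a
    rw [k]
    simp only [hf _, mul_zero, Finset.sum_const_zero] at this ⊢
    simp
    linarith

lemma fold (k g : ℕ) : ∀ l : List (ℕ × ℕ),
    (l.foldr (fun (p : ℕ × ℕ) c => if p.1 &&& k = 0 then c ||| p.1 else c) 0).testBit g →
    ∃ p ∈ l, p.1 &&& k = 0 ∧ p.1.testBit g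
  | [], h => by simp at h
  | p :: l, h => by
    simp only [List.foldr_cons] at h
    split_ifs at h with e
    · rw [Nat.testBit_or, Bool.or_eq_true] at h
      rcases h with h | h
      · exact (fold k g l h).imp fun q hq => ⟨List.mem_cons_of_mem _ hq.1, hq.2⟩
      · exact ⟨p, by simp, e, h⟩
    · exact (fold k g l h).imp fun q hq => ⟨List.mem_cons_of_mem _ hq.1, hq.2⟩

lemma sep (a b : Fin 30) (h : a = b ∨ G.Adj a b) :
    ∃ x, Ker x ∧ x b = x a ∧ ∀ g, g ≠ a → g ≠ b → x g < x a := by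
  have c1 : ∀ a b : Fin 30, a = b ∨ G.Adj a b → L.foldr (fun p c => if p.1 &&& (2 ^ a.val ||| 2 ^ b.val) = 0
      then c ||| p.1 else c) 0 ||| (2 ^ a.val ||| 2 ^ b.val) = 2 ^ 30 - 1 := by decide +kernel
  have c2 : ∀ p ∈ L, ∀ u, ∑ g, N u g * y p g = 2 := by decide +kernel
  let S := L.toFinset.filter fun p => p.1 &&& (2 ^ a.val ||| 2 ^ b.val) = 0
  have z : ∀ p ∈ S, y p a = 0 ∧ y p b = 0 := fun p hp => by
    have h1 := congrArg (·.testBit a) (Finset.mem_filter.1 hp).2
    have h2 := congrArg (·.testBit b) (Finset.mem_filter.1 hp).2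
    simp at h1 h2
    simp [y, h1, h2]
  refine ⟨fun g => ∑ p ∈ S, (2 - 3 * y p g : ℝ), fun u => ?_,
    Finset.sum_congr rfl fun p hp => by rw [(z p hp).1, (z p hp).2], fun g g1 g2 => ?_⟩
  · simp only [Finset.mul_sum]
    rw [Finset.sum_comm]
    refine Finset.sum_eq_zero fun p hp => ?_
    have h1 := congrArg (Int.cast : ℤ → ℝ) (c2 p (List.mem_toFinset.1 (Finset.mem_filter.1 hp).1) u)
    have h2 := congrArg (Int.cast : ℤ → ℝ) (row u)
    push_cast at h1 h2
    simp only [mul_sub, Finset.sum_sub_distrib, ← Finset.sum_mul, h2, mul_left_comm _ (3 : ℝ),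
      ← Finset.mul_sum, h1]
    norm_num
  · have := congrArg (·.testBit g) (c1 a b h)
    simp only [Nat.testBit_or, Nat.testBit_two_pow_sub_one, g.2, decide_true, Nat.testBit_two_pow,
      Fin.val_inj, g1.symm, g2.symm, decide_false, Bool.or_false] at this
    obtain ⟨p, hp, e, t⟩ := fold _ _ _ this
    have nn : ∀ p, (0 : ℝ) ≤ y p g := fun p => by unfold y; split_ifs <;> norm_num
    have hS : p ∈ S := Finset.mem_filter.2 ⟨List.mem_toFinset.2 hp, e⟩
    refine Finset.sum_lt_sum (fun q hq => by rw [(z q hq).1, Int.cast_zero]; linarith [nn q]) ⟨p, hS, ?_⟩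
    rw [(z p hS).1, y, if_pos t]
    split_ifs <;> norm_num

lemma rel (a b : Fin 30) (h : b ∈ nb a) :
    ∃ c d, c ≠ a ∧ c ≠ b ∧ ∀ f, Ker f → f c + f d = f a + f b := by
  have : ∀ a, ((R a).all fun r => decide (r.2.1 ≠ a ∧ r.2.1 ≠ r.1 ∧ ∀ g, N r.2.2.2.1 g - N r.2.2.2.2 g =
      (if a = g then 1 else 0) + (if r.1 = g then 1 else 0) - (if r.2.1 = g then 1 else 0) -
      if r.2.2.1 = g then 1 else 0)) = true := by decide +kernel
  obtain ⟨r, hr, rfl⟩ := List.mem_map.1 h
  obtain ⟨h1, h2, h3⟩ := of_decide_eq_true (List.all_eq_true.1 (this a) r hr)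
  refine ⟨_, r.2.2.1, h1, h2, fun f hf => ?_⟩
  have := congrArg₂ (· - ·) (hf r.2.2.2.1) (hf r.2.2.2.2)
  simp only [← Finset.sum_sub_distrib, ← sub_mul, ← Int.cast_sub, h3] at this
  simp [sub_mul, add_mul, Finset.sum_add_distrib] at this
  linarith

def W : ℕ → Fin 30 → Fin 30 → ℕ
  | 0, a, b => if a = b then 1 else 0
  | k + 1, a, b => ((nb a).map fun c => W k c b).sum

def D : Fin 5 → Fin 30 → ℕ :=
  ![![64, 62, 62, 60, 62, 62, 62, 62, 60, 64, 62, 62, 64, 60, 62, 60, 60, 64, 64, 62, 62, 62, 64,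
   62, 62, 62, 64, 64, 64, 64],
   ![248, 252, 248, 248, 244, 248, 244, 248, 248, 248, 248, 248, 252, 252, 248, 248, 252, 252, 252,
   248, 248, 248, 252, 248, 248, 248, 252, 256, 252, 252],
   ![1004, 996, 996, 988, 992, 992, 992, 992, 984, 1000, 992, 996, 1008, 996, 996, 988, 996, 1004,
   1008, 996, 1000, 1000, 1000, 992, 1000, 996, 1004, 1008, 1004, 1000],
   ![3996, 4004, 3984, 3976, 3956, 3976, 3960, 3980, 3968, 3988, 3980, 3988, 4012, 4008, 3984,
   3976, 4004, 3996, 4004, 3988, 3992, 3996, 3996, 3976, 3984, 3972, 4008, 4024, 4012, 3992],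
   ![16008, 15968, 15964, 15904, 15896, 15896, 15908, 15928, 15872, 15968, 15924, 15960, 16040,
   15980, 15944, 15896, 15972, 15980, 16020, 15968, 15988, 15996, 15948, 15904, 15968, 15924,
   16000, 16036, 16020, 15940]]

lemma rigid (π : Fin 30 → Fin 30) (hπ : Function.Injective π) (h : ∀ a, ∀ b ∈ nb a, π b ∈ nb (π a))
    (a : Fin 30) : π a = a := by
  have nd : ∀ a, (nb a).Nodup ∧ (nb a).length = 4 := by decide +kernel
  have st : ∀ f g : Fin 30 → ℕ, (∀ c, f (π c) = g c) → ∀ a,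
      ((nb (π a)).map f).sum = ((nb a).map g).sum := fun f g e a => by
    have : ((nb a).map π).Perm (nb (π a)) := (List.subperm_of_subset ((nd a).1.map hπ) fun x hx => by
      obtain ⟨b, hb, rfl⟩ := List.mem_map.1 hx
      exact h a b hb).perm_of_length_le (by simp [nd])
    rw [← (this.map f).sum_eq, List.map_map]
    exact congrArg List.sum (List.map_congr_left fun c _ => e c)
  have w : ∀ k a b, W k (π a) (π b) = W k a b := fun k => by
    induction k with
    | zero => simp [W, hπ.eq_iff]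
    | succ k ih => exact fun a b => st _ _ (fun c => ih c b) a
  have d0 : ∀ a, D 0 a = W 5 a a := by decide +kernel
  have d : ∀ a, D 1 a = ((nb a).map (D 0)).sum ∧ D 2 a = ((nb a).map (D 1)).sum ∧
      D 3 a = ((nb a).map (D 2)).sum ∧ D 4 a = ((nb a).map (D 3)).sum := by decide +kernel
  have e0 : ∀ a, D 0 (π a) = D 0 a := fun a => by rw [d0, d0, w]
  have e1 : ∀ a, D 1 (π a) = D 1 a := fun a => by rw [(d _).1, (d _).1, st _ _ e0]
  have e2 : ∀ a, D 2 (π a) = D 2 a := fun a => by rw [(d _).2.1, (d _).2.1, st _ _ e1]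
  have e3 : ∀ a, D 3 (π a) = D 3 a := fun a => by rw [(d _).2.2.1, (d _).2.2.1, st _ _ e2]
  have e4 : ∀ a, D 4 (π a) = D 4 a := fun a => by rw [(d _).2.2.2, (d _).2.2.2, st _ _ e3]
  have : ∀ a b, D 4 a = D 4 b → D 3 a = D 3 b → D 2 a = D 2 b → D 1 a = D 1 b → a = b := by
    decide +kernel
  exact this _ _ (e4 a) (e3 a) (e2 a) (e1 a)

theorem result : ∃ (n d : ℕ) (p : Fin n → Fin d → ℝ) (G : SimpleGraph (Fin n))
    (_ : DecidableRel G.Adj) (θ : ℝ), 3 ≤ n ∧ Function.Injective p ∧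
    (convexHull ℝ (Set.range p)).extremePoints ℝ = Set.range p ∧
    (∀ i j, i ≠ j → (G.Adj i j ↔ IsExposed ℝ (convexHull ℝ (Set.range p)) (segment ℝ (p i) (p j)))) ∧
    LinearIndependent ℝ (fun k i => p i k) ∧
    Submodule.span ℝ (Set.range fun k i => p i k) =
      Module.End.eigenspace (Matrix.toLin' (G.adjMatrix ℝ)) θ ∧
    ∀ T : (Fin d → ℝ) ≃ₗ[ℝ] (Fin d → ℝ),
      T '' convexHull ℝ (Set.range p) = convexHull ℝ (Set.range p) → T = LinearEquiv.refl ℝ _ := by
  let U := Module.End.eigenspace (Matrix.toLin' (G.adjMatrix ℝ)) (1 : ℝ)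
  have hU : ∀ f, f ∈ U ↔ Ker f := fun f => Module.End.mem_eigenspace_iff.trans (eig f)
  let b := Module.finBasis ℝ U
  let p : Fin 30 → Fin (Module.finrank ℝ U) → ℝ := fun i k => (b k).1 i
  have li : LinearIndependent ℝ (fun k i => p i k) := b.linearIndependent.map' U.subtype U.ker_subtype
  have sp : Submodule.span ℝ (Set.range fun k i => p i k) = U := by
    have := congrArg (Submodule.map U.subtype) b.span_eq
    rwa [Submodule.map_span, Submodule.map_subtype_top, ← Set.range_comp] at this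
  have fn : ∀ a c, a = c ∨ G.Adj a c → ∃ l, l ⬝ᵥ p c = l ⬝ᵥ p a ∧
      ∀ g, g ≠ a → g ≠ c → l ⬝ᵥ p g < l ⬝ᵥ p a := fun a c h => by
    obtain ⟨x, hx, h1, h2⟩ := sep a c h
    rw [← hU, ← sp] at hx
    obtain ⟨l, rfl⟩ := (Submodule.mem_span_range_iff_exists_fun _).1 hx
    exact ⟨l, by simpa [dotProduct] using h1, fun g g1 g2 => by simpa [dotProduct] using h2 g g1 g2⟩
  have ex : ∀ a c, a = c ∨ G.Adj a c →
      IsExposed ℝ (convexHull ℝ (Set.range p)) (segment ℝ (p a) (p c)) := fun a c h => by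
    obtain ⟨l, h1, h2⟩ := fn a c h
    refine face p l a c h1 (fun w => ?_) fun w hw => ?_
    · by_cases e : w = a
      · rw [e]
      by_cases e' : w = c
      · rw [e', h1]
      exact (h2 w e e').le
    · by_contra hc
      push Not at hc
      exact (h2 w hc.1 hc.2).ne hw
  have inj : Function.Injective p := fun x y e => by
    obtain ⟨l, -, h⟩ := fn y y (.inl rfl)
    by_contra hc
    exact (h x hc hc).ne (by rw [e])
  have ext : (convexHull ℝ (Set.range p)).extremePoints ℝ = Set.range p :=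
    extremePoints_convexHull_subset.antisymm (by
      rintro _ ⟨i, rfl⟩
      exact exposedPoints_subset_extremePoints
        (mem_exposedPoints_iff_exposed_singleton.2 (by simpa using ex i i (.inl rfl))))
  have rl : ∀ a, ∀ c ∈ nb a, ∃ k l, k ≠ a ∧ k ≠ c ∧ p k + p l = p a + p c := fun a c h => by
    obtain ⟨k, l, h1, h2, h3⟩ := rel a c h
    exact ⟨k, l, h1, h2, funext fun j => h3 _ ((hU _).1 (b j).2)⟩
  have m : ∀ w, p w ∈ convexHull ℝ (Set.range p) := fun w => subset_convexHull _ _ ⟨w, rfl⟩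
  refine ⟨30, _, p, G, inferInstance, 1, by norm_num, inj, ext,
    fun x y e => ⟨fun h => ex x y (.inr h), fun h => ⟨e, fun hn => ?_⟩⟩, li, sp, fun T hT => ?_⟩
  · obtain ⟨k, l, k1, k2, hk⟩ := rl x y hn
    have : p k ∈ segment ℝ (p x) (p y) := h.isExtreme.left_mem_of_mem_openSegment (m k) (m l)
      ⟨1 / 2, 1 / 2, by norm_num, by norm_num, by norm_num, rfl⟩
      ⟨1 / 2, 1 / 2, by norm_num, by norm_num, by norm_num, by rw [← smul_add, hk, smul_add]⟩
    rcases (mem_extremePoints_iff_forall_segment.1 (ext.ge ⟨k, rfl⟩)).2 _ (m x) _ (m y) this with t | t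
    exacts [k1 (inj t).symm, k2 (inj t).symm]
  · have := image_extremePoints T (convexHull ℝ (Set.range p))
    rw [hT, ext] at this
    choose π hπ using fun i => this.le ⟨p i, ⟨i, rfl⟩, rfl⟩
    have pi : Function.Injective π := fun i j e => inj (T.injective (by rw [← hπ, e, hπ]))
    have fx := rigid π pi fun a c h => by
      obtain ⟨k, l, k1, k2, hk⟩ := rl a c h
      by_contra hn
      have nl : ∀ a, a ∉ nb a := by decide +kernel
      obtain ⟨f, h1, h2⟩ := fn (π a) (π c) (.inr ⟨fun e => nl a (by rwa [← pi e] at h), hn⟩)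
      have e : p (π k) + p (π l) = p (π a) + p (π c) := by simp only [hπ, ← map_add, hk]
      have e := congrArg (f ⬝ᵥ ·) e
      simp only [dotProduct_add, h1] at e
      have a1 := h2 (π k) (pi.ne k1) (pi.ne k2)
      by_cases e1 : π l = π a
      · rw [e1] at e; linarith
      by_cases e2 : π l = π c
      · rw [e2, h1] at e; linarith
      linarith [h2 (π l) e1 e2]
    have hr : Submodule.span ℝ (Set.range p) = ⊤ := by
      apply Submodule.eq_top_of_finrank_eq
      have h1 := rank_eq_finrank_span_row (Matrix.of p)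
      have h2 := rank_eq_finrank_span_cols (Matrix.of p)
      have h3 := finrank_span_eq_card li
      simp only [Fintype.card_fin, Module.finrank_fin_fun] at h3 ⊢
      exact h1.symm.trans (h2.trans h3)
    exact LinearEquiv.toLinearMap_injective (LinearMap.ext_on_range hr fun i => by
      simp [← hπ, fx])

end Pool.Agent.Results.MP_c2491a_co.Ex
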